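import Pool.Agent.MWGQ.StmtsC

/-!
# Squad MWGQ (MP_23468a_al), row FAP: `xtzxsz ≈ xtx^nzxsz` implies `FB`
-/

set_option autoImplicit false

namespace Pool.Agent.MWGQ.H64

open Pool.Agent.Helper14_MV Pool.Agent.Helper2_MV Pool.Agent.MWGQ
open Pool.Agent.MWGN (Nm WC WT Tau Ns nl sg nn)

variable {n : ℕ} {β : FIC}

theorem tr {a b c : List ℕ} (h1 : RR β a b) (h2 : RR β b c) : RR β a c := β.trans h1 h2

theorem ctx (p q : List ℕ) {l l' : List ℕ} (h : RR β l l') :
    RR β (p ++ (l ++ q)) (p ++ (l' ++ q)) :=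
  (RR.refl p).append (h.append (RR.refl q))

theorem pw_succ (k : ℕ) (u : List ℕ) : pw (k + 1) u = u ++ pw k u := by
  unfold pw
  rw [List.replicate_succ, List.flatten_cons]

theorem pw_add (a b : ℕ) (u : List ℕ) : pw (a + b) u = pw a u ++ pw b u := by
  unfold pw
  rw [List.replicate_add, List.flatten_append]

/-- substitution of words for `0, 1, 2, 3` -/
def sb (X Z T S : List ℕ) (c : ℕ) : List ℕ :=
  if c = 0 then X else if c = 1 then Z else if c = 2 then T else S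

theorem sb_rep (X Z T S : List ℕ) (k : ℕ) :
    (List.replicate k 0).flatMap (sb X Z T S) = pw k X := by
  induction k with
  | zero => rfl
  | succ k ih =>
    rw [List.replicate_succ, List.flatMap_cons, ih, pw_succ]
    rfl

/-- `X t Z X s Z ~ X t X^n Z X s Z` -/
theorem p0w (hp : P0 n β) (X t Z s : List ℕ) :
    RR β (X ++ (t ++ (Z ++ (X ++ (s ++ Z))))) (X ++ (t ++ (pw n X ++ (Z ++ (X ++ (s ++ Z)))))) := by
  have h1 := hp.sub (sb X Z t s)
  have e1 : ([0, 2, 1, 0, 3, 1] : List ℕ).flatMap (sb X Z t s) =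
      X ++ (t ++ (Z ++ (X ++ (s ++ Z)))) := by simp [sb]
  have e2 : (([0, 2] : List ℕ) ++ (List.replicate n 0 ++ [1, 0, 3, 1])).flatMap (sb X Z t s) =
      X ++ (t ++ (pw n X ++ (Z ++ (X ++ (s ++ Z))))) := by
    rw [List.flatMap_append, List.flatMap_append, sb_rep]
    simp [sb]
  rw [e1, e2] at h1
  exact h1

/-- powers of `X` which are not first -/
theorem pwx2 (pwx : PwxStmt) (h : Gn n β) (p1 p2 q X : List ℕ) {a b : ℕ} (ha : 1 ≤ a)
    (hb : 1 ≤ b) (hab : a ≡ b [MOD n]) :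
    RR β ((p1 ++ (X ++ p2)) ++ (pw a X ++ q)) ((p1 ++ (X ++ p2)) ++ (pw b X ++ q)) := by
  have h1 := ctx p1 q ((pwx n β h).2.1 X p2 a b ha hb hab)
  simpa only [List.append_assoc] using h1

/-- insertion of `X^(2n)` in front of `Z` -/
theorem insX (pwx : PwxStmt) (h : Gn n β) (hp : P0 n β) (p1 p2 s q X Z : List ℕ) :
    RR β ((p1 ++ (X ++ p2)) ++ (Z ++ (X ++ (s ++ (Z ++ q)))))
      ((p1 ++ (X ++ p2)) ++ (pw (2 * n) X ++ (Z ++ (X ++ (s ++ (Z ++ q)))))) := by
  have hn := h.pos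
  have h1 := ctx p1 q (p0w hp X p2 Z s)
  have h2 := pwx2 pwx h p1 p2 (Z ++ (X ++ (s ++ (Z ++ q)))) X (a := n) (b := 2 * n) hn
    (by omega) (by
      have : n ≡ n + n * 1 [MOD n] := by simp [Nat.ModEq]
      rw [mul_one] at this
      rwa [two_mul])
  refine tr ?_ h2
  simpa only [List.append_assoc] using h1

/-- `C^(n+1) E ~ E C^(n+1) E` behind an `X`, `E = X^(2n)` -/
theorem tmp (pwx : PwxStmt) (h : Gn n β) (p1 p2 q X C : List ℕ) :
    RR β ((p1 ++ (X ++ p2)) ++ (pw (n + 1) C ++ (pw (2 * n) X ++ q)))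
      ((p1 ++ (X ++ p2)) ++ (pw (2 * n) X ++ (pw (n + 1) C ++ (pw (2 * n) X ++ q)))) := by
  have hn := h.pos
  have h1 := pwx2 pwx h p1 (p2 ++ pw (n + 1) C) q X (a := 2 * n) (b := 2 * n + 2 * n)
    (by omega) (by omega) (by
      have h3 : 2 * n ≡ 0 [MOD n] := by simp [Nat.ModEq]
      have h4 : 2 * n + 2 * n ≡ 0 [MOD n] := by simp [Nat.ModEq, Nat.add_mod]
      exact h3.trans h4.symm)
  rw [pw_add (2 * n) (2 * n)] at h1
  have h2 := ctx (p1 ++ (X ++ p2)) (pw (2 * n) X ++ q)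
    ((pwx n β h).2.2 X C (2 * n) (n + 1) (by omega) (by omega))
  have h3 : RR β ((p1 ++ (X ++ p2)) ++ (pw (n + 1) C ++ (pw (2 * n) X ++ q)))
      ((p1 ++ (X ++ p2)) ++ (pw (n + 1) C ++ (pw (2 * n) X ++ (pw (2 * n) X ++ q)))) := by
    simpa only [List.append_assoc] using h1
  refine tr h3 ?_
  have h4 := h2.symm
  simpa only [List.append_assoc] using h4

/-- the blocks of a list of indices -/
def bl (n : ℕ) (L C : ℕ → List ℕ) (X : List ℕ) (s : ℕ → Bool) (l : List ℕ) : List ℕ :=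
  l.flatMap (fun i => L i ++ (pw (n + 1) (C i) ++ (if s i then pw (2 * n) X else [])))

theorem insl (pwx : PwxStmt) (h : Gn n β) (hp : P0 n β) (L C : ℕ → List ℕ) (X F R : List ℕ)
    (hF : pw (2 * n) X = X ++ F) (r : ℕ) (l : List ℕ)
    (hR : ∀ i, i ∈ l ∨ i = r → ∃ R1 R2, R = R1 ++ (L i ++ R2)) (p1 p2 : List ℕ) :
    RR β ((p1 ++ (X ++ p2)) ++ (bl n L C X (fun _ => true) l ++ (L r ++ (pw (2 * n) X ++ R))))
      ((p1 ++ (X ++ p2)) ++ (pw (2 * n) X ++ (bl n L C X (fun _ => true) l ++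
        (L r ++ (pw (2 * n) X ++ R))))) := by
  cases l with
  | nil =>
    obtain ⟨R1, R2, hR'⟩ := hR r (Or.inr rfl)
    have e : bl n L C X (fun _ => true) [] = [] := rfl
    have e2 : L r ++ (pw (2 * n) X ++ R) = L r ++ (X ++ ((F ++ R1) ++ (L r ++ R2))) := by
      rw [hF, hR']
      simp only [List.append_assoc]
    rw [e, List.nil_append, e2]
    exact insX pwx h hp p1 p2 (F ++ R1) R2 X (L r)
  | cons j l =>
    obtain ⟨R1, R2, hR'⟩ := hR j (Or.inl List.mem_cons_self)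
    obtain ⟨E, hE⟩ : ∃ E, E = pw (2 * n) X := ⟨_, rfl⟩
    obtain ⟨D, hD⟩ : ∃ D, D = pw (n + 1) (C j) := ⟨_, rfl⟩
    obtain ⟨V, hV⟩ : ∃ V, V = bl n L C X (fun _ => true) l ++ (L r ++ E) := ⟨_, rfl⟩
    have e : bl n L C X (fun _ => true) (j :: l) ++ (L r ++ (E ++ R)) =
        L j ++ (D ++ (E ++ (V ++ R))) := by
      rw [hV, hD, hE]
      unfold bl
      rw [List.flatMap_cons]
      simp only [if_true, List.append_assoc]
    -- the temporary words
    have h1 := tmp pwx h p1 (p2 ++ L j) (V ++ R) X (C j)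
    have h2 := tmp pwx h p1 (p2 ++ (E ++ L j)) (V ++ R) X (C j)
    have h3 := insX pwx h hp p1 p2 (F ++ (D ++ (E ++ (V ++ R1)))) R2 X (L j)
    rw [← hE, ← hD] at h1 h2
    rw [← hE] at h3 hF ⊢
    rw [e]
    have g1 : RR β ((p1 ++ (X ++ p2)) ++ (L j ++ (D ++ (E ++ (V ++ R)))))
        ((p1 ++ (X ++ p2)) ++ (L j ++ (E ++ (D ++ (E ++ (V ++ R)))))) := by
      simpa only [List.append_assoc] using h1
    have ee : L j ++ (E ++ (D ++ (E ++ (V ++ R)))) =
        L j ++ (X ++ ((F ++ (D ++ (E ++ (V ++ R1)))) ++ (L j ++ R2))) := by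
      rw [hR']
      conv_lhs => rw [hF]
      rw [hF]
      simp only [List.append_assoc]
    have g2 : RR β ((p1 ++ (X ++ p2)) ++ (L j ++ (E ++ (D ++ (E ++ (V ++ R))))))
        ((p1 ++ (X ++ p2)) ++ (E ++ (L j ++ (E ++ (D ++ (E ++ (V ++ R))))))) := by
      rw [ee]
      exact h3
    have g3 : RR β ((p1 ++ (X ++ p2)) ++ (E ++ (L j ++ (E ++ (D ++ (E ++ (V ++ R)))))))
        ((p1 ++ (X ++ p2)) ++ (E ++ (L j ++ (D ++ (E ++ (V ++ R)))))) := by
      have h4 := h2.symm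
      simpa only [List.append_assoc] using h4
    exact tr g1 (tr g2 g3)

theorem fill (pwx : PwxStmt) (h : Gn n β) (hp : P0 n β) (L C : ℕ → List ℕ) (X F R : List ℕ)
    (hF : pw (2 * n) X = X ++ F) (r : ℕ) (l : List ℕ) :
    (∀ i, i ∈ l ∨ i = r → ∃ R1 R2, R = R1 ++ (L i ++ R2)) → ∀ p1 p2 : List ℕ,
    RR β ((p1 ++ (X ++ p2)) ++ (bl n L C X (fun _ => false) l ++ (L r ++ (pw (2 * n) X ++ R))))
      ((p1 ++ (X ++ p2)) ++ (bl n L C X (fun _ => true) l ++ (L r ++ (pw (2 * n) X ++ R)))) := by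
  induction l with
  | nil => exact fun _ p1 p2 => RR.refl _
  | cons j l ih =>
    intro hR p1 p2
    have hR' : ∀ i, i ∈ l ∨ i = r → ∃ R1 R2, R = R1 ++ (L i ++ R2) := by
      intro i hi
      exact hR i (hi.imp (List.mem_cons_of_mem _) id)
    have h1 := ih hR' p1 (p2 ++ (L j ++ pw (n + 1) (C j)))
    have h2 := insl pwx h hp L C X F R hF r l hR' p1 (p2 ++ (L j ++ pw (n + 1) (C j)))
    have e1 : bl n L C X (fun _ => false) (j :: l) =
        L j ++ (pw (n + 1) (C j) ++ bl n L C X (fun _ => false) l) := by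
      unfold bl
      rw [List.flatMap_cons]
      simp
    have e2 : bl n L C X (fun _ => true) (j :: l) =
        L j ++ (pw (n + 1) (C j) ++ (pw (2 * n) X ++ bl n L C X (fun _ => true) l)) := by
      unfold bl
      rw [List.flatMap_cons]
      simp
    rw [e1, e2]
    have h3 := tr h1 h2
    simpa only [List.append_assoc] using h3

/-- **FAP** -/
theorem fap (pwx : PwxStmt) : FapStmt := by
  intro n β h hp r τ hτ X B S L C
  have hn := h.pos
  have hR : ∀ i, i ∈ List.range r ∨ i = r → ∃ R1 R2,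
      B ++ τ.flatMap (fun i => S i ++ L i) = R1 ++ (L i ++ R2) := by
    intro i hi
    have hi' : i ≤ r := by
      rcases hi with hi | hi
      · have := List.mem_range.1 hi
        omega
      · exact hi.le
    obtain ⟨τ1, τ2, hτ'⟩ := List.append_of_mem ((hτ.2 i).2 hi')
    refine ⟨B ++ (τ1.flatMap (fun i => S i ++ L i) ++ S i), τ2.flatMap (fun i => S i ++ L i), ?_⟩
    rw [hτ', List.flatMap_append, List.flatMap_cons]
    simp only [List.append_assoc]
  obtain ⟨m, hm⟩ : ∃ m, 2 * n = m + 1 := ⟨2 * n - 1, by omega⟩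
  have hF : pw (2 * n) X = X ++ pw m X := by rw [hm, pw_succ]
  have h1 := fill pwx h hp L C X (pw m X) (B ++ τ.flatMap (fun i => S i ++ L i)) hF r
    (List.range r) hR [] (pw m X)
  rw [List.nil_append, ← hF] at h1
  unfold ws
  have e : ∀ s : ℕ → Bool, bs n L C X s r = bl n L C X s (List.range r) := fun _ => rfl
  rw [e, e]
  exact h1

end Pool.Agent.MWGQ.H64
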